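import Pool.Agent.Helper63.PG.Alg

/-!
# Project PG, module ANC
-/

set_option autoImplicit false

namespace Pool.Agent.Helper29.PG

open Pool.Agent.Helper63.PG Pool.Agent.Helper63.OC Pool.Agent.Helper24.OCM

theorem hANC (K : ℕ) (G : SimpleGraph ℕ) (v : ℕ) :
    anc K G v ≤ v ∧ isAnc K G (anc K G v) ∧ cl K G (anc K G v) = cl K G v ∧
      nr G v v (anc K G v) (2 * rr (ci K G v)) := by
  have hne : {x | x ≤ v ∧ isAnc K G x ∧ cl K G x = cl K G v ∧
      ¬ Disjoint (Bl K G x) (Bl K G v)}.Nonempty := by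
    by_cases h : isAnc K G v
    · refine ⟨v, le_rfl, h, rfl, ?_⟩
      rw [Set.not_disjoint_iff]
      exact ⟨v, self_mem_bal G v _, self_mem_bal G v _⟩
    · rw [isAnc] at h
      push Not at h
      obtain ⟨x, h1, h2, h3, h4⟩ := h
      exact ⟨x, h1.le, h2, h3, h4⟩
  obtain ⟨h1, h2, h3, h4⟩ := Nat.sInf_mem hne
  refine ⟨h1, h2, h3, ?_⟩
  rw [Set.not_disjoint_iff] at h4
  obtain ⟨p, h5, h6⟩ := h4
  have hci : ci K G (anc K G v) = ci K G v := congrArg Prod.fst h3
  change nr G (anc K G v) (anc K G v) p (rr (ci K G (anc K G v))) at h5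
  change nr G v v p (rr (ci K G v)) at h6
  rw [hci] at h5
  have h7 := nr_trans h6 (nr_symm (nr_time h5 h1))
  rwa [← two_mul] at h7

end Pool.Agent.Helper29.PG
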