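import Pool.Agent.Helper63.PG.Alg

/-!
# Project PG, module GRO
-/

set_option autoImplicit false

namespace Pool.Agent.Helper29.PG

open Pool.Agent.Helper63.PG Pool.Agent.Helper63.OC Pool.Agent.Helper24.OCM

theorem hGRO {K d n : ℕ} (hd : 0 < d) (hn : n ≤ K ^ d) (G : SimpleGraph ℕ) {v : ℕ}
    (hv : v < n) : ci K G v < d ∧
      (bal G v (rr (ci K G v + 1))).ncard ≤ K * (bal G v (rr (ci K G v))).ncard := by
  have hex : ∃ i < d, (bal G v (rr (i + 1))).ncard ≤ K * (bal G v (rr i)).ncard := by
    by_contra hcon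
    push Not at hcon
    have hind : ∀ i, i ≤ d → K ^ i ≤ (bal G v (rr i)).ncard ∧
        (0 < i → K ^ i < (bal G v (rr i)).ncard) := by
      intro i
      induction i with
      | zero =>
        intro _
        refine ⟨?_, fun h => absurd h (lt_irrefl 0)⟩
        rw [pow_zero]
        exact (Set.ncard_pos (bal_fin G v _)).2 ⟨v, self_mem_bal G v _⟩
      | succ i ih =>
        intro hi
        have h1 := ih (by omega)
        have h2 := hcon i (by omega)
        have h3 : K ^ (i + 1) < (bal G v (rr (i + 1))).ncard := by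
          calc K ^ (i + 1) = K * K ^ i := by rw [pow_succ, mul_comm]
            _ ≤ K * (bal G v (rr i)).ncard := Nat.mul_le_mul_left K h1.1
            _ < _ := h2
        exact ⟨h3.le, fun _ => h3⟩
    have h4 := (hind d le_rfl).2 hd
    have h5 : (bal G v (rr d)).ncard ≤ v + 1 := by
      have h6 := Set.ncard_le_ncard (bal_sub G v (rr d)) (Set.finite_Iic v)
      have h7 : (Set.Iic v).ncard = v + 1 := by
        rw [← Finset.coe_Iic, Set.ncard_coe_finset, Nat.card_Iic]
      omega
    omega
  obtain ⟨i, hi, hi2⟩ := hex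
  have hne : {i | (bal G v (rr (i + 1))).ncard ≤ K * (bal G v (rr i)).ncard}.Nonempty := ⟨i, hi2⟩
  have h8 : ci K G v ≤ i := Nat.sInf_le (show i ∈ {i | (bal G v (rr (i + 1))).ncard ≤
    K * (bal G v (rr i)).ncard} from hi2)
  exact ⟨h8.trans_lt hi, Nat.sInf_mem hne⟩

end Pool.Agent.Helper29.PG
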