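import Pool.Agent.Helper63.PG.Alg

/-!
# Project PG, module KAP
-/

set_option autoImplicit false

namespace Pool.Agent.Helper29.PG

open Pool.Agent.Helper63.PG Pool.Agent.Helper63.OC Pool.Agent.Helper24.OCM

theorem hKAP {K : ℕ} (hK : 1 ≤ K) {G : SimpleGraph ℕ} {v : ℕ}
    (hD : ∀ x, {y | y ≠ x ∧ ng K G v x y}.Finite ∧
      {y | y ≠ x ∧ ng K G v x y}.ncard + 2 ≤ 2 * K)
    (hH : ∀ x, {c | ∃ u ≤ v, anc K G u = x ∧ kap K G u = c}.Finite ∧
      {c | ∃ u ≤ v, anc K G u = x ∧ kap K G u = c}.ncard ≤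
      1 + {y | y ≠ x ∧ ng K G v x y}.ncard) : kap K G v < 4 * K ^ 2 := by
  classical
  obtain ⟨hf, hc⟩ := hD (anc K G v)
  have hsub : Finset.range (kap K G v) ⊆
      hf.toFinset.biUnion (fun y => (hH y).1.toFinset) := by
    intro c hc
    rw [Finset.mem_range] at hc
    have hk : kap K G v = sInf {c | ∀ u, (_ : u < v) → cl K G u = cl K G v →
        anc K G u ≠ anc K G v → ng K G v (anc K G u) (anc K G v) → kap K G u ≠ c} := by
      rw [kap]
    rw [hk] at hc
    have h1 := Nat.notMem_of_lt_sInf hc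
    rw [Set.mem_ofPred_eq] at h1
    push Not at h1
    obtain ⟨u, hu, _, h2, h3, h4⟩ := h1
    rw [Finset.mem_biUnion]
    refine ⟨anc K G u, ?_, ?_⟩
    · rw [Set.Finite.mem_toFinset]
      obtain ⟨w, hw, h5, h6⟩ := h3
      exact ⟨h2, w, hw, h6, h5⟩
    · rw [Set.Finite.mem_toFinset]
      exact ⟨u, hu.le, rfl, h4⟩
  have h1 := Finset.card_le_card hsub
  rw [Finset.card_range] at h1
  have h2 : (hf.toFinset.biUnion (fun y => (hH y).1.toFinset)).card ≤
      hf.toFinset.card * (2 * K - 1) := by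
    refine Finset.card_biUnion_le_card_mul _ _ _ fun y _ => ?_
    rw [← Set.ncard_eq_toFinset_card _ (hH y).1]
    have := (hH y).2
    have := (hD y).2
    omega
  rw [← Set.ncard_eq_toFinset_card _ hf] at h2
  have h3 : {y | y ≠ anc K G v ∧ ng K G v (anc K G v) y}.ncard * (2 * K - 1) <
      (2 * K) * (2 * K) :=
    Nat.mul_lt_mul'' (by omega) (by omega)
  calc kap K G v ≤ _ := h1.trans h2
    _ < (2 * K) * (2 * K) := h3
    _ = 4 * K ^ 2 := by ring

end Pool.Agent.Helper29.PG
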