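import Pool.Agent.Helper63.PG.Alg

/-!
# Project PG, module SEP
-/

set_option autoImplicit false

namespace Pool.Agent.Helper29.PG

open Pool.Agent.Helper63.PG Pool.Agent.Helper63.OC Pool.Agent.Helper24.OCM

theorem hSEP {K : ℕ} {G : SimpleGraph ℕ}
    (hA : ∀ v, anc K G v ≤ v ∧ isAnc K G (anc K G v) ∧ cl K G (anc K G v) = cl K G v ∧
      nr G v v (anc K G v) (2 * rr (ci K G v))) {u v : ℕ} (huv : u < v) (hadj : G.Adj u v)
    (hl : lab1 K G u = lab1 K G v) : anc K G u = anc K G v := by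
  by_contra hne
  have hcl : cl K G u = cl K G v := congrArg Prod.fst hl
  have hkap : kap K G u = kap K G v := congrArg Prod.snd hl
  have hci : ci K G u = ci K G v := congrArg Prod.fst hcl
  obtain ⟨a1, a2, a3, a4⟩ := hA u
  obtain ⟨b1, b2, b3, b4⟩ := hA v
  have hn1 : near K G v (anc K G u) := by
    refine ⟨a1.trans huv.le, a2, a3.trans hcl, ?_⟩
    have h1 := nr_trans (nr_adj hadj.symm le_rfl huv.le) (nr_time a4 huv.le)
    rw [hci] at h1
    exact nr_mono h1 (by omega)
  have hn2 : near K G v (anc K G v) := ⟨b1, b2, b3, nr_mono b4 (by omega)⟩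
  have hng : ng K G v (anc K G u) (anc K G v) := ⟨v, le_rfl, hn1, hn2⟩
  have hset : {c | ∀ u, (_ : u < v) → cl K G u = cl K G v → anc K G u ≠ anc K G v →
      ng K G v (anc K G u) (anc K G v) → kap K G u ≠ c}.Nonempty := by
    obtain ⟨c, hc⟩ := Infinite.exists_notMem_finset ((Finset.range v).image (kap K G))
    refine ⟨c, fun u hu _ _ _ h => hc ?_⟩
    rw [Finset.mem_image]
    exact ⟨u, Finset.mem_range.2 hu, h⟩
  have hmem := Nat.sInf_mem hset
  have hk : kap K G v = sInf {c | ∀ u, (_ : u < v) → cl K G u = cl K G v →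
      anc K G u ≠ anc K G v → ng K G v (anc K G u) (anc K G v) → kap K G u ≠ c} := by
    rw [kap]
  rw [← hk] at hmem
  exact hmem u huv hcl hne hng hkap

end Pool.Agent.Helper29.PG
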